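import Mathlib
import Pool.Agent.K1H44.Gunport.Linear

set_option autoImplicit false

/-!
# The gunport problem: the number of holes is smaller than Pearce's formula, by a linear amount

`G m n` is the largest number of holes in a packing of dominoes on the `m × n` board in which no two
uncovered cells share an edge. Pearce's formula for boards with no side divisible by three says
`G m n = (mn - 4)/3` if `m ≡ n (mod 3)` and `G m n = (mn - 2)/3` otherwise.

We show that `G m n ≤ m n / 3 - (min m n - 19) / 27` for all `m`, `n` not divisible by three. So Pearce's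
formula is false for all boards with both sides at least 56, and its error grows at least like
`min m n / 27`.

Let `E` be the number of dominoes minus the number of holes. A side of a domino that is not at the edge of
the board is bare if no hole is next to it. There are `2 E + 2` bare left or right sides at most, and
`2 E + 2` bare top or bottom sides. A horizontal domino touching the left edge between two holes starts a
ray of such dominoes, three columns apart, which has to stop at a bare side because the number of columns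
is not divisible by three; a vertical domino touching the left edge starts a chain of vertical dominoes,
which also stops at a bare side unless it reaches the right edge. Complete chains of vertical dominoes and
complete chains of horizontal dominoes cannot coexist, so that this can be used in one of the two directions.
-/

namespace Pool.Agent.Results.MP_290120_co.PearceFails

open Pool.Agent.K1H44.Gunport

/-- the cells of the `m × n` board -/
noncomputable def board (m n : ℕ) : Finset (ℤ × ℤ) := Finset.Ico 0 (m : ℤ) ×ˢ Finset.Ico 0 (n : ℤ)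

/-- two cells share an edge -/
def Adj (p q : ℤ × ℤ) : Prop := |p.1 - q.1| + |p.2 - q.2| = 1

/-- the holes: cells of the board covered by no member of `P` -/
noncomputable def holes (m n : ℕ) (P : Finset (Finset (ℤ × ℤ))) : Finset (ℤ × ℤ) :=
  board m n \ P.biUnion id

/-- `P` is a gunport configuration: a set of pairwise disjoint dominoes on the board such that no two
holes share an edge. -/
structure IsGunport (m n : ℕ) (P : Finset (Finset (ℤ × ℤ))) : Prop where
  domino : ∀ s ∈ P, s ⊆ board m n ∧ ∃ p q, Adj p q ∧ s = {p, q}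
  disj : ∀ s ∈ P, ∀ t ∈ P, s ≠ t → Disjoint s t
  isolated : ∀ p ∈ holes m n P, ∀ q ∈ holes m n P, ¬ Adj p q

/-- the maximum number of holes of a gunport configuration -/
noncomputable def G (m n : ℕ) : ℕ := sSup {k | ∃ P, IsGunport m n P ∧ (holes m n P).card = k}

/-- the value given by Pearce's formula -/
def pearce (m n : ℕ) : ℕ := if m % 3 = n % 3 then (m * n - 4) / 3 else (m * n - 2) / 3

section

variable {m n : ℕ} {P : Finset (Finset (ℤ × ℤ))}

theorem IsGunport.eq_of_mem (h : IsGunport m n P) {s t : Finset (ℤ × ℤ)} (hs : s ∈ P) (ht : t ∈ P)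
    {x : ℤ × ℤ} (h1 : x ∈ s) (h2 : x ∈ t) : s = t := by
  by_contra hne
  exact (Finset.disjoint_left.mp (h.disj s hs t ht hne)) h1 h2

/-- the horizontal domino with left cell `(r, c)` -/
def Hd (r c : ℤ) : Finset (ℤ × ℤ) := {(r, c), (r, c + 1)}

/-- the vertical domino with top cell `(r, c)` -/
def Vd (r c : ℤ) : Finset (ℤ × ℤ) := {(r, c), (r + 1, c)}

theorem mem_Hd {r c : ℤ} {x : ℤ × ℤ} : x ∈ Hd r c ↔ x.1 = r ∧ (x.2 = c ∨ x.2 = c + 1) := by
  unfold Hd
  rw [Finset.mem_insert, Finset.mem_singleton]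
  constructor
  · rintro (rfl | rfl)
    · exact ⟨rfl, Or.inl rfl⟩
    · exact ⟨rfl, Or.inr rfl⟩
  · rintro ⟨h1, h2 | h2⟩
    · left; ext <;> assumption
    · right; ext <;> assumption

theorem mem_Vd {r c : ℤ} {x : ℤ × ℤ} : x ∈ Vd r c ↔ x.2 = c ∧ (x.1 = r ∨ x.1 = r + 1) := by
  unfold Vd
  rw [Finset.mem_insert, Finset.mem_singleton]
  constructor
  · rintro (rfl | rfl)
    · exact ⟨rfl, Or.inl rfl⟩
    · exact ⟨rfl, Or.inr rfl⟩
  · rintro ⟨h1, h2 | h2⟩
    · left; ext <;> assumption
    · right; ext <;> assumption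

theorem domino_cases {p q : ℤ × ℤ} (h : Adj p q) {r c : ℤ} (hx : (r, c) ∈ ({p, q} : Finset (ℤ × ℤ))) :
    ({p, q} : Finset (ℤ × ℤ)) = Hd r c ∨ ({p, q} : Finset (ℤ × ℤ)) = Hd r (c - 1) ∨
      ({p, q} : Finset (ℤ × ℤ)) = Vd r c ∨ ({p, q} : Finset (ℤ × ℤ)) = Vd (r - 1) c := by
  obtain ⟨p1, p2⟩ := p
  obtain ⟨q1, q2⟩ := q
  unfold Adj at h
  dsimp only at h
  have h4 : (p1 = q1 ∧ (q2 = p2 + 1 ∨ p2 = q2 + 1)) ∨ (p2 = q2 ∧ (q1 = p1 + 1 ∨ p1 = q1 + 1)) := by
    rcases abs_cases (p1 - q1) with ⟨h1, h2⟩ | ⟨h1, h2⟩ <;>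
    rcases abs_cases (p2 - q2) with ⟨h3, h4⟩ | ⟨h3, h4⟩ <;> omega
  rw [Finset.mem_insert, Finset.mem_singleton, Prod.mk.injEq, Prod.mk.injEq] at hx
  unfold Hd Vd
  rcases h4 with ⟨rfl, rfl | rfl⟩ | ⟨rfl, rfl | rfl⟩ <;> rcases hx with ⟨rfl, rfl⟩ | ⟨rfl, rfl⟩
  · left; rfl
  · right; left; simp
  · right; left; simp [Finset.pair_comm]
  · left; simp [Finset.pair_comm]
  · right; right; left; rfl
  · right; right; right; simp
  · right; right; right; simp [Finset.pair_comm]
  · right; right; left; simp [Finset.pair_comm]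

open Classical in
/-- the status function of a configuration -/
noncomputable def status (m n : ℕ) (P : Finset (Finset (ℤ × ℤ))) (r c : ℤ) : Cell :=
  if (r, c) ∉ board m n then .out
  else if (r, c) ∉ P.biUnion id then .hole
  else if Hd r c ∈ P then .L
  else if Hd r (c - 1) ∈ P then .R
  else if Vd r c ∈ P then .T
  else .B

theorem IsGunport.cover (h : IsGunport m n P) {s : Finset (ℤ × ℤ)} (hs : s ∈ P) {x : ℤ × ℤ}
    (hx : x ∈ s) : x ∈ board m n ∧ x ∈ P.biUnion id :=
  ⟨(h.domino s hs).1 hx, Finset.mem_biUnion.mpr ⟨s, hs, hx⟩⟩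

theorem not_HH (h : IsGunport m n P) {r c : ℤ} (h1 : Hd r c ∈ P) (h2 : Hd r (c - 1) ∈ P) : False := by
  have := h.eq_of_mem h1 h2 (x := (r, c)) (mem_Hd.mpr ⟨rfl, Or.inl rfl⟩)
    (mem_Hd.mpr ⟨rfl, Or.inr (by simp)⟩)
  have h3 : (r, c + 1) ∈ Hd r (c - 1) := this ▸ mem_Hd.mpr ⟨rfl, Or.inr rfl⟩
  rw [mem_Hd] at h3
  dsimp only at h3
  omega

theorem not_HV (h : IsGunport m n P) {r c a b d e : ℤ} (h1 : Hd a b ∈ P) (h2 : Vd d e ∈ P)
    (h3 : (r, c) ∈ Hd a b) (h4 : (r, c) ∈ Vd d e) : False := by
  have := h.eq_of_mem h1 h2 h3 h4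
  have h5 : (a, b) ∈ Vd d e := this ▸ mem_Hd.mpr ⟨rfl, Or.inl rfl⟩
  have h6 : (a, b + 1) ∈ Vd d e := this ▸ mem_Hd.mpr ⟨rfl, Or.inr rfl⟩
  rw [mem_Vd] at h5 h6
  dsimp only at h5 h6
  omega

theorem not_VV (h : IsGunport m n P) {r c : ℤ} (h1 : Vd r c ∈ P) (h2 : Vd (r - 1) c ∈ P) : False := by
  have := h.eq_of_mem h1 h2 (x := (r, c)) (mem_Vd.mpr ⟨rfl, Or.inl rfl⟩)
    (mem_Vd.mpr ⟨rfl, Or.inr (by simp)⟩)
  have h3 : (r + 1, c) ∈ Vd (r - 1) c := this ▸ mem_Vd.mpr ⟨rfl, Or.inr rfl⟩
  rw [mem_Vd] at h3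
  dsimp only at h3
  omega

theorem status_L (h : IsGunport m n P) (r c : ℤ) : status m n P r c = .L ↔ Hd r c ∈ P := by
  unfold status
  constructor
  · intro h1
    split_ifs at h1 with a b d
    exact d
  · intro h1
    have h2 := h.cover h1 (x := (r, c)) (mem_Hd.mpr ⟨rfl, Or.inl rfl⟩)
    rw [if_neg (not_not.mpr h2.1), if_neg (not_not.mpr h2.2), if_pos h1]

theorem status_R (h : IsGunport m n P) (r c : ℤ) : status m n P r c = .R ↔ Hd r (c - 1) ∈ P := by
  unfold status
  constructor
  · intro h1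
    split_ifs at h1 with a b d e
    exact e
  · intro h1
    have h2 := h.cover h1 (x := (r, c)) (mem_Hd.mpr ⟨rfl, Or.inr (by simp)⟩)
    rw [if_neg (not_not.mpr h2.1), if_neg (not_not.mpr h2.2), if_neg (fun h3 => not_HH h h3 h1),
      if_pos h1]

theorem status_T (h : IsGunport m n P) (r c : ℤ) : status m n P r c = .T ↔ Vd r c ∈ P := by
  unfold status
  constructor
  · intro h1
    split_ifs at h1 with a b d e f
    exact f
  · intro h1
    have h2 := h.cover h1 (x := (r, c)) (mem_Vd.mpr ⟨rfl, Or.inl rfl⟩)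
    have hv : (r, c) ∈ Vd r c := mem_Vd.mpr ⟨rfl, Or.inl rfl⟩
    rw [if_neg (not_not.mpr h2.1), if_neg (not_not.mpr h2.2),
      if_neg (fun h3 => not_HV h h3 h1 (mem_Hd.mpr ⟨rfl, Or.inl rfl⟩) hv),
      if_neg (fun h3 => not_HV h h3 h1 (mem_Hd.mpr ⟨rfl, Or.inr (by simp)⟩) hv), if_pos h1]

theorem status_B (h : IsGunport m n P) (r c : ℤ) : status m n P r c = .B ↔ Vd (r - 1) c ∈ P := by
  constructor
  · intro h1
    unfold status at h1
    split_ifs at h1 with a b d e f
    rw [Finset.mem_biUnion] at b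
    obtain ⟨s, hs, hx⟩ := b
    obtain ⟨-, p, q, hpq, rfl⟩ := h.domino s hs
    rcases domino_cases hpq hx with h2 | h2 | h2 | h2
    · exact absurd (h2 ▸ hs) d
    · exact absurd (h2 ▸ hs) e
    · exact absurd (h2 ▸ hs) f
    · exact h2 ▸ hs
  · intro h1
    unfold status
    have hv : (r, c) ∈ Vd (r - 1) c := mem_Vd.mpr ⟨rfl, Or.inr (by simp)⟩
    have h2 := h.cover h1 hv
    rw [if_neg (not_not.mpr h2.1), if_neg (not_not.mpr h2.2),
      if_neg (fun h3 => not_HV h h3 h1 (mem_Hd.mpr ⟨rfl, Or.inl rfl⟩) hv),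
      if_neg (fun h3 => not_HV h h3 h1 (mem_Hd.mpr ⟨rfl, Or.inr (by simp)⟩) hv),
      if_neg (fun h3 => not_VV h h3 h1)]

theorem status_hole (r c : ℤ) : status m n P r c = .hole ↔ (r, c) ∈ holes m n P := by
  unfold status holes
  rw [Finset.mem_sdiff]
  split_ifs with a b d e f <;> simp_all

/-- the configuration as a status function -/
noncomputable def conf (h : IsGunport m n P) : Conf m n where
  st := status m n P
  out_iff r c := by
    unfold status
    have : (r, c) ∉ board m n ↔ ¬ (0 ≤ r ∧ r < m ∧ 0 ≤ c ∧ c < n) := by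
      unfold board
      rw [Finset.mem_product, Finset.mem_Ico, Finset.mem_Ico, and_assoc]
    refine Iff.trans ?_ this
    split_ifs with a b d e f <;> simp_all
  lr r c := by
    rw [status_L h, status_R h, add_sub_cancel_right]
  tb r c := by
    rw [status_T h, status_B h, add_sub_cancel_right]
  hh r c h1 h2 := by
    rw [status_hole] at h1 h2
    refine h.isolated _ h1 _ h2 ?_
    unfold Adj
    simp
  hv r c h1 h2 := by
    rw [status_hole] at h1 h2
    refine h.isolated _ h1 _ h2 ?_
    unfold Adj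
    simp

theorem conf_cnt (h : IsGunport m n P) : (conf h).cnt .hole = (holes m n P).card := by
  classical
  unfold Conf.cnt
  congr 1
  ext x
  rw [Finset.mem_filter]
  have : (conf h).st x.1 x.2 = .hole ↔ x ∈ holes m n P := status_hole x.1 x.2
  rw [this]
  constructor
  · exact fun h => h.2
  · intro h2
    refine ⟨?_, h2⟩
    unfold holes at h2
    exact (Finset.mem_sdiff.mp h2).1

end

/-- **MP_290120_co, Q1 (disproof, with a linear error).** For all `m`, `n` not divisible by three
`G m n ≤ m n / 3 - (min m n - 19) / 27`. In particular Pearce's formula is too large by at least `K` as soon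
as `min m n ≥ 27 K + 29`; it is false for every board with both sides at least `56`. -/
theorem result (m n : ℕ) (hm : ¬ 3 ∣ m) (hn : ¬ 3 ∣ n) :
    27 * G m n + min m n ≤ 9 * (m * n) + 19 ∧
      ∀ K : ℕ, 27 * K + 29 ≤ min m n → G m n + K ≤ pearce m n := by
  have key : 27 * G m n + min m n ≤ 9 * (m * n) + 19 := by
    by_cases hne : {k | ∃ P, IsGunport m n P ∧ (holes m n P).card = k}.Nonempty
    · have hbdd : BddAbove {k | ∃ P, IsGunport m n P ∧ (holes m n P).card = k} := by
        refine ⟨(board m n).card, ?_⟩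
        rintro k ⟨P, -, rfl⟩
        exact Finset.card_le_card Finset.sdiff_subset
      obtain ⟨P, hP, hk⟩ := Nat.sSup_mem hne hbdd
      have h1 := (conf hP).linear hm hn
      have h2 := (conf hP).area
      rw [conf_cnt] at h1 h2
      unfold Conf.dom at h1
      have h3 : (holes m n P).card = G m n := hk
      rw [h3] at h1 h2
      omega
    · have h0 : G m n = 0 := by
        unfold G
        rw [Set.not_nonempty_iff_eq_empty.mp hne]
        simp
      rw [h0]
      have hn1 : 1 ≤ n := by
        rcases Nat.eq_zero_or_pos n with h | h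
        · exact absurd (h ▸ dvd_zero 3) hn
        · exact h
      have h1 := min_le_left m n
      have h2 : m ≤ m * n := Nat.le_mul_of_pos_right _ hn1
      omega
  refine ⟨key, fun K hK => ?_⟩
  have h4 : m * n % 3 = (m % 3) * (n % 3) % 3 := Nat.mul_mod m n 3
  have hm1 : m ≤ m * n := Nat.le_mul_of_pos_right _ (by omega)
  have h5 := min_le_left m n
  unfold pearce
  generalize m * n = N at *
  generalize G m n = g at *
  have h6 : m % 3 = 1 ∨ m % 3 = 2 := by omega
  have h7 : n % 3 = 1 ∨ n % 3 = 2 := by omega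
  rcases h6 with h6 | h6 <;> rcases h7 with h7 | h7 <;> rw [h6, h7] at h4 ⊢ <;> norm_num at h4 ⊢ <;> omega

end Pool.Agent.Results.MP_290120_co.PearceFails
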